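import Pool.Agent.helper53.BND.SpecT

/-!
Row bnd:THH of MP_376aaf_an: the heights are counted by the multiplicities.
-/

set_option autoImplicit false

open scoped Topology
open Finset Filter

namespace Pool.Agent.BND

theorem THH_cast (l : List ℕ) (h : ℕ → ℕ) : (l.map (fun v => (h v : ℤ))).sum = (((l.map h).sum : ℕ) : ℤ) := by
  induction l with
  | nil => simp
  | cons a l ih => simp only [List.map_cons, List.sum_cons, ih]; push_cast; rfl

theorem THH_cast2 (l : List (ℕ × ℝ)) (h : ℕ → ℕ) : (l.map (fun a => (h a.1 : ℤ))).sum = ((hw h l : ℕ) : ℤ) := by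
  unfold hw
  induction l with
  | nil => simp
  | cons a l ih => simp only [List.map_cons, List.sum_cons, ih]; push_cast; rfl

theorem THH : THH_stmt := by
  intro B M hB m v' hv'
  have hN : v' < (B.L (m + 1)).N := lt_of_lt_of_le hv' (hB.lv (m + 1)).nN
  have h0 : (0 : ℝ) ∈ U := ⟨le_refl 0, zero_le_one⟩
  have h1 := hB.cnt m v' (fun v => ((B.L m).h v : ℤ)) hv'
  have h2 : sw (fun e _ => (((B.L m).W e false).map (fun v => ((B.L m).h v : ℤ))).sum) (B.w m v' 0) =
      (((B.L (m + 1)).h v' : ℕ) : ℤ) := by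
    unfold sw
    rw [← hB.htw m v' 0 hN h0, ← THH_cast2]
    congr 1
    refine List.map_congr_left ?_
    intro a ha
    have haN := (hB.lett m v' 0 hN h0 a ha).1
    show (((B.L m).W a.1 false).map (fun v => ((B.L m).h v : ℤ))).sum = (((B.L m).h a.1 : ℕ) : ℤ)
    rw [THH_cast, (hB.lv m).ht a.1 haN false]
  rw [h2] at h1
  have h3 : (((((B.L (m + 1)).h v' : ℕ) : ℤ)) : ℝ) = ((∑ v ∈ range (B.L m).n, (M m v' v : ℤ) * ((B.L m).h v : ℤ) : ℤ) : ℝ) := by
    rw [h1]
  push_cast at h3
  exact h3.symm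

end Pool.Agent.BND
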